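import Pool.Agent.Helper24.Br.Inj
import Pool.Agent.Helper22.Half.Defs
import Pool.Agent.Helper39.Area.Exterior

set_option autoImplicit false

open MeasureTheory Set Metric Filter Topology
open scoped Real

/-!
The logarithm of the derivative of a function of the class Σ (light imports).
-/

namespace Pool.Agent.Helper58.BF

open Pool.Agent.Helper22.Half (SigmaLog)
open Pool.Agent.Helper39.Area (toDisc inv_mem isOpen_ext)
open Pool.Agent.Helper24.Br (deriv_ne_of_inj exists_log_ball)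

/-- the logarithm of the derivative -/
theorem exists_sigmaLog {ψ : ℂ → ℂ}
    (hψ : DifferentiableOn ℂ ψ {z : ℂ | 1 < ‖z‖})
    (hinj : Set.InjOn ψ {z : ℂ | 1 < ‖z‖})
    (hc : ∃ c : ℂ, Tendsto (fun z => ψ z - z) (Bornology.cobounded ℂ) (𝓝 c)) :
    ∃ h : ℂ → ℂ, SigmaLog ψ h := by
  obtain ⟨c, hc⟩ := hc
  have hne : ∀ z : ℂ, 1 < ‖z‖ → deriv ψ z ≠ 0 := fun z hz => deriv_ne_of_inj isOpen_ext hψ hinj hz
  have hexp : ∀ z : ℂ, 1 < ‖z‖ → Complex.exp ((fun z => Complex.log (deriv ψ z)) z) =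
      deriv ψ z := fun z hz => Complex.exp_log (hne z hz)
  obtain ⟨hE, hex⟩ := Pool.Agent.Helper39.Area.ext_data hψ hinj hc hexp
  have hq : DifferentiableOn ℂ (fun ζ => 1 - ζ ^ 2 * deriv (toDisc c (fun z => ψ z - z)) ζ)
      (ball 0 1) := by
    have h1 := hE.diff.deriv isOpen_ball
    have h2 : DifferentiableOn ℂ (fun ζ : ℂ => ζ ^ 2) (ball 0 1) := by fun_prop
    exact (differentiableOn_const (1 : ℂ)).sub (h2.mul h1)
  obtain ⟨H, hH, hH0, hHe⟩ := exists_log_ball hq (fun z hz => hE.ne z hz) (by simp)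
  have hz0 : ∀ z : ℂ, 1 < ‖z‖ → z ≠ 0 := by
    rintro z hz rfl
    simp at hz
    linarith
  have hzb : ∀ z : ℂ, 1 < ‖z‖ → z⁻¹ ∈ ball (0 : ℂ) 1 := by
    intro z hz
    rw [mem_ball_zero_iff, norm_inv]
    exact inv_lt_one_of_one_lt₀ hz
  refine ⟨fun z => H z⁻¹, ⟨hψ, hinj, ⟨c, hc⟩, ?_, ?_, ?_⟩⟩
  · intro z hz
    have h1 : DifferentiableAt ℂ H z⁻¹ := hH.differentiableAt (isOpen_ball.mem_nhds (hzb z hz))
    exact (h1.comp z (differentiableAt_inv (hz0 z hz))).differentiableWithinAt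
  · intro z hz
    have h0 := inv_ne_zero (hz0 z hz)
    rw [hHe _ (hzb z hz), ← hex _ (hzb z hz)]
    simp only [toDisc]
    rw [if_neg h0, inv_inv]
    exact Complex.exp_log (hne _ hz)
  · have h1 : ContinuousAt H 0 := (hH.differentiableAt (ball_mem_nhds 0 one_pos)).continuousAt
    have h2 := h1.tendsto
    rw [hH0] at h2
    exact h2.comp tendsto_inv₀_cobounded

end Pool.Agent.Helper58.BF
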