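import Pool.Agent.Helper58.BF.BridgeM
import Pool.Agent.Helper69.BF.Pos

/-!
The piecewise linear bound of the integral means spectrum on the real line, from the values at `2`,
`1`, `-1`, `-7/5` and a bound `p - 1 + e` for the powers `-p`, `p ≥ 2`.
-/

set_option autoImplicit false

open Complex MeasureTheory Set Filter
open scoped Real Topology

namespace Pool.Agent.Helper58.BF

open Pool.Agent.Helper58.CK (SigB SigE sigE_zero)

theorem sigB_of_lt {q s b : ℝ} (h : SigE q s) (hb : s < b) : SigB q b := by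
  have h1 := h (b - s) (by linarith)
  rwa [add_sub_cancel] at h1

/-- **the bound function** -/
theorem bound_fun {e : ℝ} (hE : ∀ p : ℝ, 2 ≤ p → SigE p (p - 1 + e)) {t b : ℝ}
    (h1 : 133 / 400 * t < b) (h6 : (267 * t - 134) / 400 < b) (h7 : t - 1 < b)
    (h2 : -(353 / 1250) * t < b)
    (h3 : -(6265 * t + 3441) / 10000 < b)
    (h4 : ((2 + t) * (533 / 1000) - (t + 7 / 5) * (1 + e)) * (5 / 3) < b)
    (h5 : -t - 1 + e < b) : SigB (-t) b := by
  rcases le_total 2 t with p2 | p2
  · exact (Pool.Agent.Helper69.BF.sigB_neg p2).mono h7.le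
  rcases le_total 1 t with p1 | p1
  · have h8 : SigE (-2) 1 := sigE_of_sigB Pool.Agent.Helper69.BF.sigB_neg_two
    have h9 := h8.chord sigE_neg_one (p := -t) (by norm_num) (by linarith) (by linarith)
    apply sigB_of_lt h9
    have e1 : ((-1 - -t) * 1 + (-t - -2) * (133 / 400)) / (-1 - -2) = (267 * t - 134) / 400 := by
      ring
    rw [e1]
    exact h6
  rcases le_total 0 t with p0 | p0
  · have h8 := sigE_neg_one.chord sigE_zero (p := -t) (by norm_num) (by linarith) (by linarith)
    apply sigB_of_lt h8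
    have e1 : ((0 - -t) * (133 / 400) + (-t - -1) * 0) / (0 - -1) = 133 / 400 * t := by ring
    rw [e1]
    exact h1
  rcases le_total (-1) t with n1 | n1
  · have h8 := sigE_zero.chord sigE_one (p := -t) (by norm_num) (by linarith) (by linarith)
    apply sigB_of_lt h8
    have e1 : ((1 - -t) * 0 + (-t - 0) * (353 / 1250)) / (1 - 0) = -(353 / 1250) * t := by ring
    rw [e1]
    exact h2
  rcases le_total (-(7 / 5)) t with n7 | n7
  · have h8 := sigE_one.chord sigE_m14 (p := -t) (by norm_num) (by linarith) (by linarith)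
    apply sigB_of_lt h8
    have e1 : ((7 / 5 - -t) * (353 / 1250) + (-t - 1) * (533 / 1000)) / (7 / 5 - 1) =
        -(6265 * t + 3441) / 10000 := by ring
    rw [e1]
    exact h3
  rcases le_total (-2) t with n2 | n2
  · have h8 := sigE_m14.chord (hE 2 le_rfl) (p := -t) (by norm_num) (by linarith) (by linarith)
    apply sigB_of_lt h8
    have e1 : ((2 - -t) * (533 / 1000) + (-t - 7 / 5) * (2 - 1 + e)) / (2 - 7 / 5) =
        ((2 + t) * (533 / 1000) - (t + 7 / 5) * (1 + e)) * (5 / 3) := by ring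
    rw [e1]
    exact h4
  · exact sigB_of_lt (hE (-t) (by linarith)) h5

/-- **the bound of the spectrum on the real line**, from the excess `1 / 200` at `-2` -/
theorem spectrum (hE : ∀ p : ℝ, 2 ≤ p → ∀ e : ℝ, 0 < e → SigB p (p - 1 + 1 / 200 + e)) :
    ∀ t b : ℝ, t - 1 < b → (267 * t - 134) / 400 < b → 133 / 400 * t < b →
      -(353 / 1250) * t < b → -(6265 * t + 3441) / 10000 < b → -(472 * t + 341) / 600 < b →
      -t - 199 / 200 < b →
      ∃ C : ℝ, ∀ ψ : ℂ → ℂ,
      DifferentiableOn ℂ ψ {z : ℂ | 1 < ‖z‖} →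
      Set.InjOn ψ {z : ℂ | 1 < ‖z‖} →
      (∃ c : ℂ, Filter.Tendsto (fun z => ψ z - z) (Bornology.cobounded ℂ) (nhds c)) →
      ∀ R : ℝ, 1 < R →
        (2 * Real.pi)⁻¹ * (∫ θ in (0:ℝ)..(2 * Real.pi),
          ‖deriv ψ (R * Complex.exp (θ * Complex.I))‖ ^ t) ≤
          C * (R ^ 2 / (R ^ 2 - 1)) ^ b := by
  intro t b h7 h6 h1 h2 h3 h4 h5
  have h := bound_fun (e := 1 / 200) (fun p hp => fun e he => hE p hp e he) h1 h6 h7 h2 h3
    (by
      have e1 : ((2 + t) * (533 / 1000) - (t + 7 / 5) * (1 + 1 / 200)) * (5 / 3) =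
        -(472 * t + 341) / 600 := by ring
      rw [e1]
      exact h4)
    (by linarith)
  unfold SigB at h
  rw [neg_neg] at h
  exact h

end Pool.Agent.Helper58.BF
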